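import Pool.Agent.H.MP_d0305a_co.D

set_option autoImplicit false

namespace Pool.Agent.H.MP_d0305a_co
open Set

section gen
variable {V W : Type} [AddCommGroup V] [Module ℝ V] [TopologicalSpace V]
  [AddCommGroup W] [Module ℝ W] [TopologicalSpace W]

def G (x : ℝ × ℝ × ℝ) (q : V → ℝ) (S : Set V) (N : ℕ) : Prop :=
  ∃ (ι : Type) (_ : Fintype ι) (A B C : ι → V), Fintype.card ι = N ∧
    (∀ i, q (B i - C i) = x.1 ∧ q (C i - A i) = x.2.1 ∧ q (A i - B i) = x.2.2) ∧
    (⋃ i, convexHull ℝ {A i, B i, C i}) = S ∧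
    Pairwise fun i j =>
      Disjoint (interior (convexHull ℝ {A i, B i, C i})) (interior (convexHull ℝ {A j, B j, C j}))

variable {x : ℝ × ℝ × ℝ}

theorem G.cg {q : V → ℝ} {S T : Set V} {N M : ℕ} (h : G x q S N) (e : ∀ z, z ∈ S ↔ z ∈ T)
    (e' : N = M) : G x q T M := by
  have : S = T := Set.ext e
  subst this; subst e'; exact h

theorem G.un {q : V → ℝ} {S T : Set V} {N M : ℕ} (h : G x q S N) (h' : G x q T M)
    (d : ∀ z ∈ S, z ∉ interior T) : G x q (S ∪ T) (N + M) := by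
  obtain ⟨ι, i1, A, B, C, c1, q1, u1, p1⟩ := h
  obtain ⟨κ, i2, A', B', C', c2, q2, u2, p2⟩ := h'
  refine ⟨ι ⊕ κ, inferInstance, Sum.elim A A', Sum.elim B B', Sum.elim C C', ?_, ?_, ?_, ?_⟩
  · simp [c1, c2]
  · rintro (i | i)
    · exact q1 i
    · exact q2 i
  · rw [iUnion_sum, ← u1, ← u2]; rfl
  · have key : ∀ i j, Disjoint (interior (convexHull ℝ {A i, B i, C i}))
        (interior (convexHull ℝ {A' j, B' j, C' j})) := by
      intro i j
      rw [Set.disjoint_left]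
      intro z h1 h2
      refine d z (u1 ▸ mem_iUnion.2 ⟨i, interior_subset h1⟩) ?_
      exact interior_mono (u2 ▸ subset_iUnion (fun j => convexHull ℝ {A' j, B' j, C' j}) j) h2
    rintro (i | i) (j | j) hij
    · exact p1 (fun e => hij (by rw [e]))
    · exact key i j
    · exact (key j i).symm
    · exact p2 (fun e => hij (by rw [e]))

theorem G.map {q : V → ℝ} {q' : W → ℝ} {S : Set V} {N : ℕ} (h : G x q S N) (φ : V →ᵃ[ℝ] W)
    (ψ : W → V) (hc : Continuous φ) (h1 : ∀ w, φ (ψ w) = w) (h2 : ∀ z, ψ (φ z) = z)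
    (hq : ∀ z w, q' (φ z - φ w) = q (z - w)) : G x q' {w | ψ w ∈ S} N := by
  obtain ⟨ι, i1, A, B, C, c1, q1, u1, p1⟩ := h
  have hi : Function.Injective φ := Function.LeftInverse.injective h2
  have im : ∀ i, convexHull ℝ {φ (A i), φ (B i), φ (C i)} = φ '' convexHull ℝ {A i, B i, C i} := by
    intro i
    rw [AffineMap.image_convexHull]; simp [image_insert_eq]
  have it : ∀ (s : Set V) z, φ z ∈ interior (φ '' s) → z ∈ interior s := by
    intro s z hz
    have : φ ⁻¹' interior (φ '' s) ⊆ interior s := by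
      apply interior_maximal _ (isOpen_interior.preimage hc)
      intro y hy
      have := interior_subset hy
      rwa [hi.mem_set_image] at this
    exact this hz
  refine ⟨ι, i1, fun i => φ (A i), fun i => φ (B i), fun i => φ (C i), c1, ?_, ?_, ?_⟩
  · intro i; simp only [hq]; exact q1 i
  · simp only [im]
    rw [← image_iUnion, u1]
    ext w
    constructor
    · rintro ⟨z, hz, rfl⟩; simpa [h2] using hz
    · intro hw; exact ⟨ψ w, hw, h1 w⟩
  · intro i j hij
    simp only [im]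
    rw [Set.disjoint_left]
    intro w a b
    rw [← h1 w] at a b
    exact Set.disjoint_left.1 (p1 hij) (it _ _ a) (it _ _ b)

noncomputable def aff (P e f : W) : (ℝ × ℝ) →ᵃ[ℝ] W where
  toFun z := P + z.1 • e + z.2 • f
  linear := LinearMap.coprod (LinearMap.toSpanSingleton ℝ W e) (LinearMap.toSpanSingleton ℝ W f)
  map_vadd' p v := by
    simp only [vadd_eq_add, Prod.fst_add, Prod.snd_add, LinearMap.coprod_apply,
      LinearMap.toSpanSingleton_apply, add_smul]
    abel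

omit [TopologicalSpace W] in
theorem aff_apply (P e f : W) (z : ℝ × ℝ) : aff P e f z = P + z.1 • e + z.2 • f := rfl

theorem aff_cont [IsTopologicalAddGroup W] [ContinuousSMul ℝ W] (P e f : W) :
    Continuous (aff P e f) := by
  show Continuous fun z : ℝ × ℝ => P + z.1 • e + z.2 • f
  fun_prop

end gen

theorem int_lt {S : Set (ℝ × ℝ)} (α β γ : ℝ) (h0 : 0 < α ^ 2 + β ^ 2)
    (h : ∀ z ∈ S, α * z.1 + β * z.2 ≤ γ) {z : ℝ × ℝ} (hz : z ∈ interior S) :
    α * z.1 + β * z.2 < γ := by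
  have c : Continuous fun t : ℝ => z + t • (α, β) := by fun_prop
  have e : ∀ᶠ t in nhds (0 : ℝ), z + t • (α, β) ∈ interior S :=
    c.continuousAt.preimage_mem_nhds (isOpen_interior.mem_nhds (by simpa using hz))
  obtain ⟨t, ht, t0⟩ := ((e.filter_mono nhdsWithin_le_nhds).and
    (self_mem_nhdsWithin (s := Ioi (0 : ℝ)))).exists
  have := h _ (interior_subset ht)
  simp only [Prod.fst_add, Prod.snd_add, Prod.smul_mk, smul_eq_mul] at this
  have t1 : (0 : ℝ) < t := t0
  nlinarith [mul_pos t1 h0]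

variable {x : ℝ × ℝ × ℝ}

theorem G.cut {q : ℝ × ℝ → ℝ} {S T : Set (ℝ × ℝ)} {N M : ℕ} (h : G x q S N) (h' : G x q T M)
    (α β γ : ℝ) (h0 : 0 < α ^ 2 + β ^ 2) (h1 : ∀ z ∈ S, γ ≤ α * z.1 + β * z.2)
    (h2 : ∀ z ∈ T, α * z.1 + β * z.2 ≤ γ) : G x q (S ∪ T) (N + M) :=
  h.un h' fun z hz hi => absurd (int_lt α β γ h0 h2 hi) (not_lt.2 (h1 z hz))

theorem G.sh {q : ℝ × ℝ → ℝ} {S : Set (ℝ × ℝ)} {N : ℕ} (h : G x q S N) (u v : ℝ) :
    G x q {w | (w.1 - u, w.2 - v) ∈ S} N :=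
  h.map (aff (u, v) (1, 0) (0, 1)) (fun w => (w.1 - u, w.2 - v)) (aff_cont _ _ _)
    (fun w => by simp [aff_apply]) (fun w => by simp [aff_apply])
    (fun z w => by congr 1; ext <;> simp [aff_apply])

def Tk (k : ℝ) : Set (ℝ × ℝ) := {z | 0 ≤ z.1 ∧ 0 ≤ z.2 ∧ z.1 + z.2 ≤ k}
def Rc (m n : ℝ) : Set (ℝ × ℝ) := {z | 0 ≤ z.1 ∧ 0 ≤ z.2 ∧ z.1 ≤ m ∧ z.2 ≤ n}

theorem hull_std : convexHull ℝ {((0 : ℝ), (0 : ℝ)), (1, 0), (0, 1)} = Tk 1 := by
  apply Subset.antisymm
  · apply convexHull_min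
    · intro z hz
      simp only [mem_insert_iff, mem_singleton_iff] at hz
      rcases hz with rfl | rfl | rfl <;> simp [Tk]
    · rintro p ⟨p1, p2, p3⟩ r ⟨r1, r2, r3⟩ a b ha hb hab
      simp only [Tk, mem_ofPred_eq, Prod.fst_add, Prod.snd_add, Prod.smul_fst, Prod.smul_snd,
        smul_eq_mul]
      refine ⟨by positivity, by positivity, by nlinarith⟩
  · rintro ⟨s, t⟩ ⟨h1, h2, h3⟩
    have := (convex_convexHull ℝ {((0 : ℝ), (0 : ℝ)), (1, 0), (0, 1)}).sum_mem
      (t := Finset.univ) (w := ![1 - s - t, s, t]) (z := ![(0, 0), (1, 0), (0, 1)])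
      (by intro i _; fin_cases i <;> simp <;> linarith)
      (by simp only [Fin.sum_univ_three, Matrix.cons_val]; ring)
      (by intro i _; apply subset_convexHull; fin_cases i <;> simp)
    simpa [Fin.sum_univ_three] using this

theorem G.one {q : ℝ × ℝ → ℝ} (A B C : ℝ × ℝ)
    (e : ({A, B, C} : Set (ℝ × ℝ)) = {(0, 0), (1, 0), (0, 1)})
    (h : q (B - C) = x.1 ∧ q (C - A) = x.2.1 ∧ q (A - B) = x.2.2) : G x q (Tk 1) 1 :=
  ⟨Unit, inferInstance, fun _ => A, fun _ => B, fun _ => C, by simp, fun _ => h,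
    by rw [iUnion_const, e, hull_std], fun _ _ h => (h rfl).elim⟩

section fr
variable {q : ℝ × ℝ → ℝ} (ev : ∀ z, q (-z) = q z) (h : G x q (Tk 1) 1)
include ev h

theorem sq1 : G x q (Rc 1 1) 2 := by
  have h2 := h.map (q' := q) (aff (1, 1) (-1, 0) (0, -1)) (fun w => (1 - w.1, 1 - w.2))
    (aff_cont _ _ _) (fun w => by simp [aff_apply]) (fun w => by simp [aff_apply])
    (fun z w => by rw [← ev]; congr 1; ext <;> simp [aff_apply] <;> ring)
  refine (h2.cut h 1 1 1 (by norm_num) ?_ ?_).cg ?_ rfl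
  · rintro z ⟨_, _, _⟩; simp only at *; linarith
  · rintro z ⟨_, _, _⟩; linarith
  · intro z
    simp only [Tk, Rc, mem_union, mem_ofPred_eq]
    constructor
    · rintro (⟨_, _, _⟩ | ⟨_, _, _⟩) <;> refine ⟨?_, ?_, ?_, ?_⟩ <;> linarith
    · rintro ⟨_, _, _, _⟩
      rcases le_total (z.1 + z.2) 1 with h | h
      · right; refine ⟨?_, ?_, ?_⟩ <;> linarith
      · left; refine ⟨?_, ?_, ?_⟩ <;> linarith

theorem row (m : ℕ) : G x q (Rc (m + 1) 1) (2 * (m + 1)) := by
  induction m with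
  | zero => simpa using sq1 ev h
  | succ m ih =>
    have m0 : (0 : ℝ) ≤ m := Nat.cast_nonneg m
    refine ((ih.sh 1 0).cut (sq1 ev h) 1 0 1 (by norm_num) ?_ ?_).cg ?_ (by ring)
    · rintro z ⟨_, _, _, _⟩; simp only at *; linarith
    · rintro z ⟨_, _, _, _⟩; linarith
    · intro z
      simp only [Rc, mem_union, mem_ofPred_eq]
      push_cast
      constructor
      · rintro (⟨_, _, _, _⟩ | ⟨_, _, _, _⟩) <;> refine ⟨?_, ?_, ?_, ?_⟩ <;> linarith
      · rintro ⟨_, _, _, _⟩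
        rcases le_total z.1 1 with h | h
        · right; refine ⟨?_, ?_, ?_, ?_⟩ <;> linarith
        · left; refine ⟨?_, ?_, ?_, ?_⟩ <;> linarith

theorem rect (m n : ℕ) : G x q (Rc (m + 1) (n + 1)) (2 * (m + 1) * (n + 1)) := by
  induction n with
  | zero => simpa using row ev h m
  | succ n ih =>
    have m0 : (0 : ℝ) ≤ n := Nat.cast_nonneg n
    refine ((ih.sh 0 1).cut (row ev h m) 0 1 1 (by norm_num) ?_ ?_).cg ?_ (by ring)
    · rintro z ⟨_, _, _, _⟩; simp only at *; linarith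
    · rintro z ⟨_, _, _, _⟩; linarith
    · intro z
      simp only [Rc, mem_union, mem_ofPred_eq]
      push_cast
      constructor
      · rintro (⟨_, _, _, _⟩ | ⟨_, _, _, _⟩) <;> refine ⟨?_, ?_, ?_, ?_⟩ <;> linarith
      · rintro ⟨_, _, _, _⟩
        rcases le_total z.2 1 with h | h
        · right; refine ⟨?_, ?_, ?_, ?_⟩ <;> linarith
        · left; refine ⟨?_, ?_, ?_, ?_⟩ <;> linarith

theorem trk (k : ℕ) : G x q (Tk (k + 1)) ((k + 1) ^ 2) := by
  induction k with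
  | zero => simpa using h
  | succ k ih =>
    have m0 : (0 : ℝ) ≤ k := Nat.cast_nonneg k
    have s := (h.sh (k + 1) 0).cut (row ev h k) 1 0 (k + 1) (by norm_num)
      (by rintro z ⟨_, _, _⟩; simp only at *; linarith)
      (by rintro z ⟨_, _, _, _⟩; linarith)
    refine ((ih.sh 0 1).cut s 0 1 1 (by norm_num) ?_ ?_).cg ?_ (by ring)
    · rintro z ⟨_, _, _⟩; simp only at *; linarith
    · rintro z (⟨_, _, _⟩ | ⟨_, _, _, _⟩)
      · simp only at *; linarith
      · linarith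
    · intro z
      simp only [Rc, Tk, mem_union, mem_ofPred_eq]
      push_cast
      constructor
      · rintro (⟨_, _, _⟩ | ⟨_, _, _⟩ | ⟨_, _, _, _⟩) <;> refine ⟨?_, ?_, ?_⟩ <;> linarith
      · rintro ⟨_, _, _⟩
        rcases le_total z.2 1 with h | h
        · right
          rcases le_total z.1 (k + 1) with h' | h'
          · right; refine ⟨?_, ?_, ?_, ?_⟩ <;> linarith
          · left; refine ⟨?_, ?_, ?_⟩ <;> linarith
        · left; refine ⟨?_, ?_, ?_⟩ <;> linarith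

end fr

end Pool.Agent.H.MP_d0305a_co
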