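import Pool.Agent.H.MP_d0305a_co.A

set_option autoImplicit false

namespace Pool.Agent.H.MP_d0305a_co
open Set

def q0 (z : ℝ × ℝ) : ℝ := z.1 ^ 2 + z.1 * z.2 + z.2 ^ 2
def x0 : ℝ × ℝ × ℝ := (1024, 2025, 4489)
def qf (e f : ℝ × ℝ) (z : ℝ × ℝ) : ℝ := q0 (z.1 • e + z.2 • f)

theorem qf_ev (e f z : ℝ × ℝ) : qf e f (-z) = qf e f z := by
  simp only [qf, q0, Prod.fst_add, Prod.snd_add, Prod.smul_fst, Prod.smul_snd, smul_eq_mul,
    Prod.fst_neg, Prod.snd_neg]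
  ring

theorem base (e f : ℝ × ℝ) (h1 : q0 e = 1024) (h2 : q0 f = 2025) (h3 : q0 (f - e) = 4489) :
    G x0 (qf e f) (Tk 1) 1 := by
  refine G.one (0, 1) (1, 0) (0, 0) ?_ ⟨?_, ?_, ?_⟩
  · ext z; simp only [mem_insert_iff, mem_singleton_iff]; tauto
  · simpa [qf, x0] using h1
  · simp only [q0] at h2; simp [qf, x0, q0]; linarith
  · simp only [q0, Prod.fst_sub, Prod.snd_sub] at h3; simp [qf, x0, q0]; linarith

theorem fr {S : Set (ℝ × ℝ)} {N : ℕ} (P e f : ℝ × ℝ) (h : G x0 (qf e f) S N)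
    (ψ : ℝ × ℝ → ℝ × ℝ) (h1 : ∀ w, aff P e f (ψ w) = w) (h2 : ∀ z, ψ (aff P e f z) = z) :
    G x0 q0 {w | ψ w ∈ S} N :=
  h.map (aff P e f) ψ (aff_cont _ _ _) h1 h2 fun z w => by
    simp only [qf]; congr 1; ext <;> simp [aff_apply] <;> ring

theorem t1 : G x0 q0 {w | 0 ≤ w.1 ∧ w.2 ≤ 1440 ∧ 45 * w.1 ≤ 32 * w.2} 1024 := by
  refine (fr (0, 1440) (32, 0) (0, -45) (trk (qf_ev _ _) (base _ _ (by norm_num [q0])
    (by norm_num [q0]) (by norm_num [q0])) 31) (fun w => (w.1 / 32, (1440 - w.2) / 45))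
    (fun w => by ext <;> simp [aff_apply] <;> ring)
    (fun w => by ext <;> simp [aff_apply] <;> ring)).cg ?_ rfl
  intro z
  simp only [Tk, mem_ofPred_eq]
  push_cast
  constructor <;> rintro ⟨_, _, _⟩ <;> refine ⟨?_, ?_, ?_⟩ <;> linarith

theorem t3 : G x0 q0 {w | w.2 ≤ 1440 ∧ w.1 + w.2 ≤ 4489 ∧ 143648 ≤ 32 * w.1 + 77 * w.2} 2025 := by
  refine (fr (3049, 1440) (32, -32) (-45, 0) (trk (qf_ev _ _) (base _ _ (by norm_num [q0])
    (by norm_num [q0]) (by norm_num [q0])) 44)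
    (fun w => ((1440 - w.2) / 32, (4489 - w.1 - w.2) / 45))
    (fun w => by ext <;> simp [aff_apply] <;> ring)
    (fun w => by ext <;> simp [aff_apply] <;> ring)).cg ?_ rfl
  intro z
  simp only [Tk, mem_ofPred_eq]
  push_cast
  constructor <;> rintro ⟨_, _, _⟩ <;> refine ⟨?_, ?_, ?_⟩ <;> linarith

theorem t2 : G x0 q0 {w | 32 * w.1 + 77 * w.2 ≤ 143648 ∧ 32 * w.2 ≤ 45 * w.1 ∧ 0 ≤ w.2} 4489 := by
  refine (fr (1024, 1440) (-1024 / 67, -1440 / 67) (3465 / 67, -1440 / 67)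
    (trk (qf_ev _ _) (base _ _ (by norm_num [q0])
    (by norm_num [q0]) (by norm_num [q0])) 66)
    (fun w => (67 - w.1 / 67 - 3465 * w.2 / 96480, (w.1 - 32 * w.2 / 45) / 67))
    (fun w => by ext <;> simp [aff_apply] <;> ring)
    (fun w => by ext <;> simp [aff_apply] <;> ring)).cg ?_ rfl
  intro z
  simp only [Tk, mem_ofPred_eq]
  push_cast
  constructor <;> rintro ⟨_, _, _⟩ <;> refine ⟨?_, ?_, ?_⟩ <;> linarith

theorem pa (i : ℕ) : G x0 q0 (Rc (32 * (i + 1)) 1440) (64 * (i + 1)) := by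
  refine (fr (0, 1440) (32, 0) (0, -45) (rect (qf_ev _ _) (base _ _ (by norm_num [q0])
    (by norm_num [q0]) (by norm_num [q0])) i 31) (fun w => (w.1 / 32, (1440 - w.2) / 45))
    (fun w => by ext <;> simp [aff_apply] <;> ring)
    (fun w => by ext <;> simp [aff_apply] <;> ring)).cg ?_ (by ring)
  intro z
  simp only [Rc, mem_ofPred_eq]
  push_cast
  constructor <;> rintro ⟨_, _, _, _⟩ <;> refine ⟨?_, ?_, ?_, ?_⟩ <;> linarith

theorem pb : G x0 q0 (Rc 855 1440) 1710 := by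
  refine (fr (0, 1440) (0, -32) (45, 0) (rect (qf_ev _ _) (base _ _ (by norm_num [q0])
    (by norm_num [q0]) (by norm_num [q0])) 44 18) (fun w => ((1440 - w.2) / 32, w.1 / 45))
    (fun w => by ext <;> simp [aff_apply] <;> ring)
    (fun w => by ext <;> simp [aff_apply] <;> ring)).cg ?_ (by ring)
  intro z
  simp only [Rc, mem_ofPred_eq]
  push_cast
  constructor <;> rintro ⟨_, _, _, _⟩ <;> refine ⟨?_, ?_, ?_, ?_⟩ <;> linarith

def Z (w : ℝ) : Set (ℝ × ℝ) := {z | 0 ≤ z.1 ∧ 0 ≤ z.2 ∧ z.2 ≤ 1440 ∧ z.1 + z.2 ≤ w + 1440}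

theorem z0 : G x0 q0 (Z 3049) 7538 := by
  have s := t2.cut t1 45 (-32) 0 (by norm_num) (by rintro z ⟨_, _, _⟩; linarith)
    (by rintro z ⟨_, _, _⟩; linarith)
  refine (t3.cut s 32 77 143648 (by norm_num) (by rintro z ⟨_, _, _⟩; linarith)
    (by rintro z (⟨_, _, _⟩ | ⟨_, _, _⟩) <;> linarith)).cg ?_ rfl
  intro z
  simp only [Z, mem_union, mem_ofPred_eq]
  constructor
  · rintro (⟨_, _, _⟩ | ⟨_, _, _⟩ | ⟨_, _, _⟩) <;> refine ⟨?_, ?_, ?_, ?_⟩ <;> linarith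
  · rintro ⟨_, _, _, _⟩
    rcases le_total (32 * z.1 + 77 * z.2) 143648 with h | h
    · right
      rcases le_total (45 * z.1) (32 * z.2) with h' | h'
      · right; refine ⟨?_, ?_, ?_⟩ <;> linarith
      · left; refine ⟨?_, ?_, ?_⟩ <;> linarith
    · left; refine ⟨?_, ?_, ?_⟩ <;> linarith

theorem zadd {w u : ℝ} {N M : ℕ} (hw : 0 ≤ w) (hu : 0 ≤ u) (h : G x0 q0 (Z w) N)
    (h' : G x0 q0 (Rc u 1440) M) : G x0 q0 (Z (w + u)) (N + M) := by
  refine ((h.sh u 0).cut h' 1 0 u (by norm_num) (by rintro z ⟨_, _, _, _⟩; simp only at *; linarith)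
    (by rintro z ⟨_, _, _, _⟩; linarith)).cg ?_ rfl
  intro z
  simp only [Z, Rc, mem_union, mem_ofPred_eq]
  constructor
  · rintro (⟨_, _, _, _⟩ | ⟨_, _, _, _⟩) <;> refine ⟨?_, ?_, ?_, ?_⟩ <;> linarith
  · rintro ⟨_, _, _, _⟩
    rcases le_total z.1 u with h | h
    · right; refine ⟨?_, ?_, ?_, ?_⟩ <;> linarith
    · left; refine ⟨?_, ?_, ?_, ?_⟩ <;> linarith

theorem z3 : G x0 q0 (Z 4320) 10080 := by
  have := zadd (by norm_num) (by norm_num) (zadd (by norm_num) (by norm_num) z0 pb) (pa 12)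
  norm_num at this
  exact this

theorem z4 : G x0 q0 (Z 5760) 12960 := by
  have := zadd (by norm_num) (by norm_num) z3 (pa 44)
  norm_num at this
  exact this

theorem z5 : G x0 q0 (Z 7200) 15840 := by
  have := zadd (by norm_num) (by norm_num) z4 (pa 44)
  norm_num at this
  exact this

def Wd : Set (ℝ × ℝ) := {z | 0 ≤ z.1 ∧ 0 ≤ z.2 ∧ z.2 ≤ 4320 ∧ z.1 + z.2 ≤ 8640}

theorem wd : G x0 q0 Wd 38880 := by
  have s := (z4.sh 0 1440).cut z5 0 1 1440 (by norm_num)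
    (by rintro z ⟨_, _, _, _⟩; simp only at *; linarith) (by rintro z ⟨_, _, _, _⟩; linarith)
  refine ((z3.sh 0 2880).cut s 0 1 2880 (by norm_num)
    (by rintro z ⟨_, _, _, _⟩; simp only at *; linarith) ?_).cg ?_ rfl
  · rintro z (⟨_, _, _, _⟩ | ⟨_, _, _, _⟩)
    · simp only at *; linarith
    · linarith
  intro z
  simp only [Z, Wd, mem_union, mem_ofPred_eq]
  constructor
  · rintro (⟨_, _, _, _⟩ | ⟨_, _, _, _⟩ | ⟨_, _, _, _⟩) <;> refine ⟨?_, ?_, ?_, ?_⟩ <;> linarith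
  · rintro ⟨_, _, _, _⟩
    rcases le_total z.2 2880 with h | h
    · right
      rcases le_total z.2 1440 with h' | h'
      · right; refine ⟨?_, ?_, ?_, ?_⟩ <;> linarith
      · left; refine ⟨?_, ?_, ?_, ?_⟩ <;> linarith
    · left; refine ⟨?_, ?_, ?_, ?_⟩ <;> linarith

theorem rot {S : Set (ℝ × ℝ)} {N : ℕ} (h : G x0 q0 S N) :
    G x0 q0 {w | (w.2, 12960 - w.1 - w.2) ∈ S} N :=
  h.map (aff (12960, 0) (-1, 1) (-1, 0)) (fun w => (w.2, 12960 - w.1 - w.2)) (aff_cont _ _ _)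
    (fun w => by ext <;> simp [aff_apply]; ring) (fun w => by ext <;> simp [aff_apply]; ring)
    (fun z w => by simp [q0, aff_apply]; ring)

theorem big : G x0 q0 (Tk 12960) 116640 := by
  have s := (rot wd).cut wd 1 1 8640 (by norm_num)
    (by rintro z ⟨_, _, _, _⟩; simp only at *; linarith) (by rintro z ⟨_, _, _, _⟩; linarith)
  refine (s.un (rot (rot wd)) ?_).cg ?_ rfl
  · intro z hz hi
    have a1 := int_lt 1 0 4320 (by norm_num)
      (by rintro z ⟨_, _, _, _⟩; simp only at *; linarith) hi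
    have a2 := int_lt 0 (-1) (-4320) (by norm_num)
      (by rintro z ⟨_, _, _, _⟩; simp only at *; linarith) hi
    rcases hz with ⟨_, _, _, _⟩ | ⟨_, _, _, _⟩
    · simp only at *; linarith
    · linarith
  intro z
  simp only [Wd, Tk, mem_union, mem_ofPred_eq]
  constructor
  · rintro ((⟨_, _, _, _⟩ | ⟨_, _, _, _⟩) | ⟨_, _, _, _⟩) <;> refine ⟨?_, ?_, ?_⟩ <;> linarith
  · rintro ⟨_, _, _⟩
    rcases le_total z.1 4320 with h1 | h1 <;> rcases le_total z.2 4320 with h2 | h2 <;>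
      rcases le_total (z.1 + z.2) 8640 with h3 | h3
    all_goals first
      | (left; left; refine ⟨?_, ?_, ?_, ?_⟩ <;> linarith)
      | (left; right; refine ⟨?_, ?_, ?_, ?_⟩ <;> linarith)
      | (right; refine ⟨?_, ?_, ?_, ?_⟩ <;> linarith)

end Pool.Agent.H.MP_d0305a_co
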