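import Mathlib

set_option autoImplicit false

namespace Pool.Agent.H.MP_d0305a_co

/-- The closed triangle with vertices `A B C` in the Euclidean plane `ℂ`. -/
def tri (A B C : ℂ) : Set ℂ := convexHull ℝ {A, B, C}

/-- `T` is the union of `N` triangles with side lengths `a b c` (that is, congruent to the tile,
reflections allowed) whose interiors are pairwise disjoint. -/
def Tiles (a b c : ℝ) (T : Set ℂ) (N : ℕ) : Prop :=
  ∃ A B C : Fin N → ℂ,
    (∀ i, dist (B i) (C i) = a ∧ dist (C i) (A i) = b ∧ dist (A i) (B i) = c) ∧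
    (⋃ i, tri (A i) (B i) (C i)) = T ∧
    Pairwise fun i j =>
      Disjoint (interior (tri (A i) (B i) (C i))) (interior (tri (A j) (B j) (C j)))

/-- `T` is an equilateral triangle of side `X`. -/
def Equi (X : ℝ) (T : Set ℂ) : Prop :=
  ∃ P Q R : ℂ, dist P Q = X ∧ dist Q R = X ∧ dist R P = X ∧ T = tri P Q R

/-- The angle opposite the side `x` in a triangle with sides `x y z` (law of cosines). -/
noncomputable def ang (x y z : ℝ) : ℝ := Real.arccos ((y ^ 2 + z ^ 2 - x ^ 2) / (2 * y * z))

end Pool.Agent.H.MP_d0305a_co
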